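import Mathlib

/-!
QCS (MP_b78341_nt), module Gap. Paper proof. The b in B with no other member of B in (b, b + H] are more than H apart, so
b ↦ b / H is injective on them with values <= Y / H: at most Y / H + 1. Every other b is in one of the sets of hK:
at most sum_(h <= H) K h <= K H^2.
-/

set_option autoImplicit false

namespace Pool.Agent.QCS

open Finset

theorem gap (B : Finset ℕ) (Y H K : ℕ) (hH : 1 ≤ H) (hB : ∀ b ∈ B, b ≤ Y)
    (hK : ∀ h, 1 ≤ h → h ≤ H → (B.filter fun b => b + h ∈ B).card ≤ K * h) :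
    B.card ≤ Y / H + 1 + K * H ^ 2 := by
  obtain ⟨S, hS⟩ : ∃ S : Finset ℕ, S = B.filter fun b => ∀ h ∈ Icc 1 H, b + h ∉ B := ⟨_, rfl⟩
  have h1 : S.card ≤ Y / H + 1 := by
    have hmaps : ∀ b ∈ S, b / H ∈ range (Y / H + 1) := by
      intro b hb
      rw [hS, mem_filter] at hb
      rw [mem_range]
      exact Nat.lt_succ_of_le (Nat.div_le_div_right (hB b hb.1))
    have key : ∀ b ∈ S, ∀ b' ∈ S, b / H = b' / H → ¬ b < b' := by
      intro b hb b' hb' heq hlt
      rw [hS, mem_filter] at hb hb'
      have h2 := Nat.div_add_mod b H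
      have h3 := Nat.div_add_mod b' H
      have h4 := Nat.mod_lt b hH
      have h5 := Nat.mod_lt b' hH
      rw [heq] at h2
      have h6 : b' - b ≤ H := by omega
      have h7 : b + (b' - b) = b' := by omega
      refine hb.2 (b' - b) (mem_Icc.2 ⟨by omega, h6⟩) ?_
      rw [h7]
      exact hb'.1
    have hinj : Set.InjOn (fun b => b / H) (S : Set ℕ) := by
      intro b hb b' hb' heq
      have hb1 : b ∈ S := hb
      have hb2 : b' ∈ S := hb'
      rcases lt_trichotomy b b' with h | h | h
      · exact absurd h (key b hb1 b' hb2 heq)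
      · exact h
      · exact absurd h (key b' hb2 b hb1 heq.symm)
    have h2 := card_le_card_of_injOn (fun b => b / H) hmaps hinj
    rwa [card_range] at h2
  have h2 : B ⊆ S ∪ (Icc 1 H).biUnion fun h => B.filter fun b => b + h ∈ B := by
    intro b hb
    rw [mem_union, mem_biUnion]
    by_cases h : ∀ h ∈ Icc 1 H, b + h ∉ B
    · refine Or.inl ?_
      rw [hS, mem_filter]
      exact ⟨hb, h⟩
    · push Not at h
      obtain ⟨h, hh, hbh⟩ := h
      exact Or.inr ⟨h, hh, mem_filter.2 ⟨hb, hbh⟩⟩
  have h3 : ((Icc 1 H).biUnion fun h => B.filter fun b => b + h ∈ B).card ≤ K * H ^ 2 := by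
    refine card_biUnion_le.trans ?_
    have h4 : ∀ h ∈ Icc 1 H, (B.filter fun b => b + h ∈ B).card ≤ K * H := by
      intro h hh
      rw [mem_Icc] at hh
      exact (hK h hh.1 hh.2).trans (Nat.mul_le_mul_left K hh.2)
    refine (sum_le_sum h4).trans ?_
    rw [sum_const, Nat.card_Icc, smul_eq_mul]
    refine le_of_eq ?_
    rw [Nat.add_sub_cancel]
    ring
  calc B.card ≤ (S ∪ (Icc 1 H).biUnion fun h => B.filter fun b => b + h ∈ B).card := card_le_card h2
    _ ≤ S.card + ((Icc 1 H).biUnion fun h => B.filter fun b => b + h ∈ B).card := card_union_le _ _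
    _ ≤ Y / H + 1 + K * H ^ 2 := Nat.add_le_add h1 h3

end Pool.Agent.QCS
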