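import Mathlib

/-!
QCS (MP_b78341_nt), module Poly. Paper proof. Both sides are polynomials in b over the field ZMod p of degree at most q h; their
difference is not 0: at b = -1/q the left side is 0 (factor i = 0), the factors of the right side are b + 1 + i = (q (i+1) - 1)/q with
0 < q (i + 1) - 1 < p, and (q - 1) b + 1 + i = (q i + 1)/q with 0 < q i + 1 < p (i < (q - 1) h, so q i + 1 <= q (q - 1) h < p).
Polynomial.card_roots'.
-/

set_option autoImplicit false

namespace Pool.Agent.QCS

open Finset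

theorem poly_deg {p : ℕ} [Fact p.Prime] (a : ZMod p) (n : ℕ) :
    (∏ i ∈ range n, (Polynomial.C a * Polynomial.X +
      Polynomial.C (1 + (i : ZMod p)))).natDegree ≤ n := by
  refine (Polynomial.natDegree_prod_le _ _).trans ?_
  refine (Finset.sum_le_sum fun i _ => (Polynomial.natDegree_linear_le :
    (Polynomial.C a * Polynomial.X + Polynomial.C (1 + (i : ZMod p))).natDegree ≤ 1)).trans ?_
  simp

theorem poly_eval {p : ℕ} [Fact p.Prime] (a b : ZMod p) (n : ℕ) :
    (∏ i ∈ range n, (Polynomial.C a * Polynomial.X +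
      Polynomial.C (1 + (i : ZMod p)))).eval b = ∏ i ∈ range n, (a * b + 1 + i) := by
  rw [Polynomial.eval_prod]
  refine Finset.prod_congr rfl fun i _ => ?_
  simp only [Polynomial.eval_add, Polynomial.eval_mul, Polynomial.eval_C, Polynomial.eval_X]
  ring

theorem cast_ne {p n : ℕ} [Fact p.Prime] (h0 : 0 < n) (h1 : n < p) : (n : ZMod p) ≠ 0 := by
  intro h
  rw [ZMod.natCast_eq_zero_iff] at h
  exact absurd (Nat.le_of_dvd h0 h) (by omega)

theorem poly_card {p q h : ℕ} [Fact p.Prime] (hq : 2 ≤ q) (hh : 1 ≤ h) (hp : q * q * h < p) :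
    (univ.filter fun b : ZMod p => ∏ i ∈ range (q * h), ((q : ZMod p) * b + 1 + i) =
      (q : ZMod p) ^ h * (∏ i ∈ range h, (b + 1 + i)) *
        ∏ i ∈ range ((q - 1) * h), (((q : ZMod p) - 1) * b + 1 + i)).card ≤ q * h := by
  classical
  set P : Polynomial (ZMod p) := ∏ i ∈ range (q * h), (Polynomial.C (q : ZMod p) * Polynomial.X +
      Polynomial.C (1 + (i : ZMod p))) with hP
  set R1 : Polynomial (ZMod p) := ∏ i ∈ range h, (Polynomial.C (1 : ZMod p) * Polynomial.X +
      Polynomial.C (1 + (i : ZMod p))) with hR1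
  set R2 : Polynomial (ZMod p) := ∏ i ∈ range ((q - 1) * h),
      (Polynomial.C ((q : ZMod p) - 1) * Polynomial.X + Polynomial.C (1 + (i : ZMod p))) with hR2
  set D : Polynomial (ZMod p) := P - Polynomial.C ((q : ZMod p) ^ h) * R1 * R2 with hD
  have hev : ∀ b : ZMod p, D.eval b = ∏ i ∈ range (q * h), ((q : ZMod p) * b + 1 + i) -
      (q : ZMod p) ^ h * (∏ i ∈ range h, (b + 1 + i)) *
        ∏ i ∈ range ((q - 1) * h), (((q : ZMod p) - 1) * b + 1 + i) := by
    intro b
    rw [hD, Polynomial.eval_sub, Polynomial.eval_mul, Polynomial.eval_mul, Polynomial.eval_C, hP, hR1,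
      hR2, poly_eval, poly_eval, poly_eval]
    simp only [one_mul]
  have hqh : h + (q - 1) * h = q * h := by
    obtain ⟨k, rfl⟩ : ∃ k, q = k + 1 := ⟨q - 1, by omega⟩
    simp only [Nat.add_sub_cancel]
    ring
  have hdeg : D.natDegree ≤ q * h := by
    refine (Polynomial.natDegree_sub_le _ _).trans (max_le (poly_deg _ _) ?_)
    refine (Polynomial.natDegree_mul_le).trans ?_
    have h1 : (Polynomial.C ((q : ZMod p) ^ h) * R1).natDegree ≤ h :=
      (Polynomial.natDegree_C_mul_le _ _).trans (poly_deg _ _)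
    have h2 : R2.natDegree ≤ (q - 1) * h := poly_deg _ _
    omega
  have hqq : q * 1 ≤ q * q * h := by
    rw [Nat.mul_assoc]
    exact Nat.mul_le_mul_left q (Nat.one_le_iff_ne_zero.mpr (by positivity))
  have hq0 : (q : ZMod p) ≠ 0 := cast_ne (by omega) (by omega)
  have hD0 : D ≠ 0 := by
    intro h0
    have h1 := hev (-((q : ZMod p)⁻¹))
    rw [h0, Polynomial.eval_zero] at h1
    have hL : ∏ i ∈ range (q * h), ((q : ZMod p) * (-((q : ZMod p)⁻¹)) + 1 + i) = 0 := by
      refine Finset.prod_eq_zero (i := 0) (by rw [mem_range]; positivity) ?_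
      rw [mul_neg, mul_inv_cancel₀ hq0]
      simp
    have hA : ∏ i ∈ range h, (-((q : ZMod p)⁻¹) + 1 + i) ≠ 0 := by
      refine Finset.prod_ne_zero_iff.mpr fun i hi h2 => ?_
      rw [mem_range] at hi
      have h3 : (q : ZMod p) * (-((q : ZMod p)⁻¹) + 1 + i) = ((q * i + (q - 1) : ℕ) : ZMod p) := by
        have : (q : ZMod p) * (-((q : ZMod p)⁻¹)) = -1 := by rw [mul_neg, mul_inv_cancel₀ hq0]
        push_cast [Nat.cast_sub (show 1 ≤ q by omega)]
        linear_combination this
      rw [h2, mul_zero] at h3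
      have h4 : q * i + q ≤ q * q * h := by
        have h5 : q * (i + 1) ≤ q * h := Nat.mul_le_mul_left q hi
        have h6 : q * h ≤ q * (q * h) := Nat.mul_le_mul_left q (Nat.le_mul_of_pos_left h (by omega))
        rw [← Nat.mul_assoc] at h6
        have h7 : q * (i + 1) = q * i + q := by ring
        omega
      exact cast_ne (p := p) (n := q * i + (q - 1)) (by omega) (by omega) h3.symm
    have hB : ∏ i ∈ range ((q - 1) * h), (((q : ZMod p) - 1) * (-((q : ZMod p)⁻¹)) + 1 + i) ≠ 0 := by
      refine Finset.prod_ne_zero_iff.mpr fun i hi h2 => ?_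
      rw [mem_range] at hi
      have h3 : (q : ZMod p) * (((q : ZMod p) - 1) * (-((q : ZMod p)⁻¹)) + 1 + i) =
          ((q * i + 1 : ℕ) : ZMod p) := by
        have : (q : ZMod p) * (-((q : ZMod p)⁻¹)) = -1 := by rw [mul_neg, mul_inv_cancel₀ hq0]
        push_cast
        linear_combination ((q : ZMod p) - 1) * this
      rw [h2, mul_zero] at h3
      have h4 : q * i + 1 ≤ q * q * h := by
        have h5 : q * (i + 1) ≤ q * (q * h) := Nat.mul_le_mul_left q (by omega)
        rw [← Nat.mul_assoc] at h5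
        have h7 : q * (i + 1) = q * i + q := by ring
        omega
      exact cast_ne (p := p) (n := q * i + 1) (by omega) (by omega) h3.symm
    rw [hL, zero_sub, eq_comm, neg_eq_zero] at h1
    exact mul_ne_zero (mul_ne_zero (pow_ne_zero _ hq0) hA) hB h1
  refine le_trans ?_ hdeg
  refine le_trans ?_ (Polynomial.card_roots' D)
  refine le_trans ?_ (Multiset.toFinset_card_le _)
  refine Finset.card_le_card fun b hb => ?_
  rw [mem_filter] at hb
  rw [Multiset.mem_toFinset, Polynomial.mem_roots hD0, Polynomial.IsRoot.def, hev, sub_eq_zero]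
  exact hb.2

end Pool.Agent.QCS
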