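import Pool.Agent.QCS.Rel
import Pool.Agent.QCS.Poly
import Pool.Agent.QCS.Gap

/-!
QCS (MP_b78341_nt), module Cls. Paper proof. Let B be the set. For b in B the right side is not 0, so the binomial coefficient is not 0
and b <= q b - t p (t p <= q b < (t + 1) p by q b / p = t). If b and b + h are in B then rel applies (q (b + h) - t p < p), so b (mod p;
b <= Y < p, injective) is a root in poly_card, if q q h < p. H := natural number with H^3 <= Y < (H+1)^3 (Nat.find or Nat.nthRoot or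
floor of Y^(1/3)), H >= 1, q q H < p because H^3 < p and q^3 < p give (q q H)^3 = (q^3)^2 H^3 < p^3. gap with K = q:
card <= Y/H + 1 + q H^2 <= 8 H^2 + H^2 + q H^2 (Y/H < (H+1)^3/H <= 8 H^2), H^2 <= Y^(2/3).
-/

set_option autoImplicit false

namespace Pool.Agent.QCS

open Finset

theorem exists_cbrt {Y : ℕ} (hY : 1 ≤ Y) : ∃ H : ℕ, 1 ≤ H ∧ H ^ 3 ≤ Y ∧ Y < (H + 1) ^ 3 := by
  refine ⟨Nat.findGreatest (fun k => k ^ 3 ≤ Y) Y, ?_, ?_, ?_⟩
  · exact Nat.le_findGreatest hY (by simpa using hY)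
  · exact Nat.findGreatest_spec (P := fun k => k ^ 3 ≤ Y) hY (by simpa using hY)
  · by_contra hcon
    rw [not_lt] at hcon
    have h1 : Nat.findGreatest (fun k => k ^ 3 ≤ Y) Y + 1 ≤ Y :=
      (Nat.le_self_pow (by norm_num) _).trans hcon
    have h2 := Nat.le_findGreatest (P := fun k => k ^ 3 ≤ Y) h1 hcon
    omega

theorem cls_card {p q : ℕ} [Fact p.Prime] (hq : 2 ≤ q) (hqp : q ^ 3 < p) (t Y : ℕ) (hY1 : 1 ≤ Y) (hY : Y < p)
    (u : ZMod p) :
    (((range (Y + 1)).filter fun b : ℕ => q * b / p = t ∧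
      u * ((q * b - t * p).choose b : ZMod p) = (q : ZMod p) ^ b).card : ℝ) ≤ (q + 9) * (Y : ℝ) ^ (2 / 3 : ℝ) := by
  classical
  have hp : p.Prime := Fact.out
  have hqp' : q < p := lt_of_le_of_lt (Nat.le_self_pow (by norm_num) q) hqp
  have hq0 : (q : ZMod p) ≠ 0 := by
    intro h0
    rw [ZMod.natCast_eq_zero_iff] at h0
    exact absurd (Nat.le_of_dvd (by omega) h0) (by omega)
  set B := (range (Y + 1)).filter fun b : ℕ => q * b / p = t ∧
      u * ((q * b - t * p).choose b : ZMod p) = (q : ZMod p) ^ b with hB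
  have hmem : ∀ b ∈ B, b ≤ Y ∧ q * b / p = t ∧
      u * ((q * b - t * p).choose b : ZMod p) = (q : ZMod p) ^ b := by
    intro b hb
    rw [hB, Finset.mem_filter, Finset.mem_range] at hb
    exact ⟨by omega, hb.2⟩
  have hlow : ∀ b ∈ B, t * p + b ≤ q * b := by
    intro b hb
    obtain ⟨-, h1, h2⟩ := hmem b hb
    have h3 : t * p ≤ q * b := by
      rw [← h1]
      exact Nat.div_mul_le_self _ _
    have h4 : (q * b - t * p).choose b ≠ 0 := by
      intro h0
      rw [h0, Nat.cast_zero, mul_zero] at h2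
      exact pow_ne_zero b hq0 h2.symm
    have h5 : b ≤ q * b - t * p := by
      by_contra hcon
      exact h4 (Nat.choose_eq_zero_of_lt (by omega))
    omega
  obtain ⟨H, hH1, hH2, hH3⟩ := exists_cbrt hY1
  have hqqH : q * q * H < p := by
    have h1 : (q * q * H) ^ 3 < p ^ 3 := by
      calc (q * q * H) ^ 3 = (q ^ 3) * (q ^ 3) * H ^ 3 := by ring
        _ < p * p * p := by
            have h2 : H ^ 3 < p := lt_of_le_of_lt hH2 hY
            have h3 : q ^ 3 * q ^ 3 ≤ p * p := Nat.mul_le_mul hqp.le hqp.le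
            have h4 : 0 < p * p := Nat.mul_pos hp.pos hp.pos
            calc q ^ 3 * q ^ 3 * H ^ 3 ≤ p * p * H ^ 3 := Nat.mul_le_mul_right _ h3
              _ < p * p * p := Nat.mul_lt_mul_of_pos_left h2 h4
        _ = p ^ 3 := by ring
    exact lt_of_pow_lt_pow_left₀ 3 (Nat.zero_le _) h1
  have hK : ∀ h, 1 ≤ h → h ≤ H → (B.filter fun b => b + h ∈ B).card ≤ q * h := by
    intro h hh1 hh2
    have hqqh : q * q * h < p := lt_of_le_of_lt (Nat.mul_le_mul_left _ hh2) hqqH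
    refine le_trans ?_ (poly_card (p := p) hq hh1 hqqh)
    refine Finset.card_le_card_of_injOn (fun b : ℕ => (b : ZMod p)) ?_ ?_
    · intro b hb
      rw [Finset.mem_coe, Finset.mem_filter] at hb
      rw [Finset.mem_coe, Finset.mem_filter]
      refine ⟨Finset.mem_univ _, ?_⟩
      obtain ⟨-, h1, h2⟩ := hmem b hb.1
      obtain ⟨-, h3, h4⟩ := hmem (b + h) hb.2
      refine rel hq hqp' (hlow b hb.1) ?_ u h2 h4
      have h5 : q * (b + h) < p * (t + 1) := by
        rw [← h3]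
        exact Nat.lt_mul_div_succ _ hp.pos
      have h6 : p * (t + 1) = t * p + p := by ring
      have h7 := hp.pos
      omega
    · intro b hb b' hb' heq
      rw [Finset.mem_coe, Finset.mem_filter] at hb hb'
      have h1 := (hmem b hb.1).1
      have h2 := (hmem b' hb'.1).1
      have h3 := (ZMod.natCast_eq_natCast_iff' _ _ _).1 heq
      rw [Nat.mod_eq_of_lt (by omega), Nat.mod_eq_of_lt (by omega)] at h3
      exact h3
  have hg := gap B Y H q hH1 (fun b hb => (hmem b hb).1) hK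
  have hYH : Y / H + 1 ≤ 8 * H ^ 2 := by
    have h1 : Y / H ≤ H ^ 2 + 3 * H + 3 := by
      rw [Nat.div_le_iff_le_mul_add_pred hH1]
      have h2 : (H + 1) ^ 3 = H * (H ^ 2 + 3 * H + 3) + 1 := by ring
      omega
    have h2 : H ≤ H ^ 2 := Nat.le_self_pow (by norm_num) H
    have h3 : 1 ≤ H ^ 2 := Nat.one_le_pow _ _ hH1
    omega
  have hcard : B.card ≤ (q + 8) * H ^ 2 := by
    have h1 : (q + 8) * H ^ 2 = 8 * H ^ 2 + q * H ^ 2 := by ring
    omega
  have hH : ((H : ℝ)) ^ 2 ≤ (Y : ℝ) ^ (2 / 3 : ℝ) := by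
    have h1 : ((H : ℝ)) ^ 2 = (((H : ℝ)) ^ 3) ^ (2 / 3 : ℝ) := by
      rw [← Real.rpow_natCast, ← Real.rpow_natCast, ← Real.rpow_mul (by positivity)]
      norm_num
    rw [h1]
    refine Real.rpow_le_rpow (by positivity) ?_ (by norm_num)
    exact_mod_cast hH2
  have h1 : (B.card : ℝ) ≤ (q + 8) * (H : ℝ) ^ 2 := by exact_mod_cast hcard
  have h2 : (0 : ℝ) ≤ (Y : ℝ) ^ (2 / 3 : ℝ) := by positivity
  calc (B.card : ℝ) ≤ (q + 8) * (H : ℝ) ^ 2 := h1
    _ ≤ (q + 8) * (Y : ℝ) ^ (2 / 3 : ℝ) := mul_le_mul_of_nonneg_left hH (by positivity)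
    _ ≤ (q + 9) * (Y : ℝ) ^ (2 / 3 : ℝ) := by nlinarith

end Pool.Agent.QCS
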