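import Pool.Agent.QCS.Cls

/-!
QCS (MP_b78341_nt), module Cnt. Paper proof. m = a p + b, b < p, t = q b / p < q: q m = (q a + t) p + (q b - t p), q b - t p < p. Lucas
(Choose.choose_modEq_choose_mod_mul_choose_div_nat or _int): C(q m, m) = C(q b - t p, b) C(q a + t, a) mod p; q^m = q^(a p + b) = q^a q^b
in ZMod p (ZMod.pow_card). q is a unit, so with u = C(q a + t, a) / q^a the condition is the one of cls_card. M < p: a = 0, Y = M,
q values of t: <= q (q + 9) M^(2/3). M >= p: at most M / p + 1 <= 2 M / p values of a, Y = p - 1 (or bounded by p^(2/3)):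
<= (2 M / p) q (q + 9) p^(2/3).
-/

set_option autoImplicit false

namespace Pool.Agent.QCS

open Finset

private theorem cn_div {p q m : ℕ} (hp : 0 < p) :
    (q * m) / p = q * (m / p) + q * (m % p) / p ∧ (q * m) % p = q * (m % p) - q * (m % p) / p * p := by
  have h1 : q * m = q * (m % p) + p * (q * (m / p)) := by
    conv_lhs => rw [← Nat.mod_add_div m p]
    ring
  constructor
  · rw [h1, Nat.add_mul_div_left _ _ hp, Nat.add_comm]
  · rw [h1, Nat.add_mul_mod_self_left]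
    have h2 := Nat.mod_add_div (q * (m % p)) p
    rw [Nat.mul_comm p] at h2
    omega

private theorem cn_eq {p q m : ℕ} [Fact p.Prime] (hqp : q < p) (hq : 2 ≤ q)
    (h : (p : ℤ) ∣ ((q * m).choose m : ℤ) - (q : ℤ) ^ m) :
    (((q * (m / p) + q * (m % p) / p).choose (m / p) : ZMod p) / (q : ZMod p) ^ (m / p)) *
      ((q * (m % p) - q * (m % p) / p * p).choose (m % p) : ZMod p) = (q : ZMod p) ^ (m % p) := by
  have hp : 0 < p := (Fact.out : p.Prime).pos
  have hq0 : (q : ZMod p) ≠ 0 := by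
    intro h0
    rw [ZMod.natCast_eq_zero_iff] at h0
    exact absurd (Nat.le_of_dvd (by omega) h0) (by omega)
  have h1 := Choose.choose_modEq_choose_mod_mul_choose_div_nat (n := q * m) (k := m) (p := p)
  obtain ⟨e1, e2⟩ := cn_div (q := q) (m := m) hp
  rw [e1, e2] at h1
  have h2 := (ZMod.natCast_eq_natCast_iff _ _ p).2 h1
  have h3 := (ZMod.intCast_zmod_eq_zero_iff_dvd _ p).2 h
  push_cast at h2 h3
  have h4 : (q : ZMod p) ^ m = (q : ZMod p) ^ (m / p) * (q : ZMod p) ^ (m % p) := by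
    conv_lhs => rw [← Nat.mod_add_div m p]
    rw [pow_add, pow_mul, ZMod.pow_card, mul_comm]
  rw [sub_eq_zero, h2, h4] at h3
  have h5 : (q : ZMod p) ^ (m / p) ≠ 0 := pow_ne_zero _ hq0
  rw [div_mul_eq_mul_div, div_eq_iff h5]
  rw [mul_comm, h3, mul_comm]

theorem cnt {p q : ℕ} (hp : p.Prime) (hq : 2 ≤ q) (hqp : q ^ 3 < p) (M : ℕ) (hM : 1 ≤ M) :
    (((Icc 1 M).filter fun m : ℕ => (p : ℤ) ∣ ((q * m).choose m : ℤ) - (q : ℤ) ^ m).card : ℝ) ≤
      2 * q * (q + 9) * ((M : ℝ) * (p : ℝ) ^ (-(1 / 3) : ℝ) + (M : ℝ) ^ (2 / 3 : ℝ)) := by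
  have hfact : Fact p.Prime := ⟨hp⟩
  have hqp1 : q < p := lt_of_le_of_lt (Nat.le_self_pow (by norm_num) q) hqp
  obtain ⟨Y, hY⟩ : ∃ Y, Y = min (p - 1) M := ⟨_, rfl⟩
  have hp2 := hp.two_le
  have hY1 : 1 ≤ Y := by omega
  have hYp : Y < p := by omega
  let B : ℕ → ℕ → Finset ℕ := fun a t => (range (Y + 1)).filter fun b : ℕ => q * b / p = t ∧
      (((q * a + t).choose a : ZMod p) / (q : ZMod p) ^ a) * ((q * b - t * p).choose b : ZMod p) = (q : ZMod p) ^ b
  have hB : ∀ a t, ((B a t).card : ℝ) ≤ (q + 9) * (Y : ℝ) ^ (2 / 3 : ℝ) := fun a t =>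
    cls_card hq hqp t Y hY1 hYp _
  have hsub : ((Icc 1 M).filter fun m : ℕ => (p : ℤ) ∣ ((q * m).choose m : ℤ) - (q : ℤ) ^ m) ⊆
      (range (M / p + 1)).biUnion fun a => (range q).biUnion fun t => (B a t).image fun b => b + p * a := by
    intro m hm
    rw [mem_filter, mem_Icc] at hm
    rw [mem_biUnion]
    refine ⟨m / p, ?_, ?_⟩
    · rw [mem_range]
      have := Nat.div_le_div_right (c := p) hm.1.2
      omega
    rw [mem_biUnion]
    have hb : m % p < p := Nat.mod_lt _ hp.pos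
    refine ⟨q * (m % p) / p, ?_, ?_⟩
    · rw [mem_range]
      apply Nat.div_lt_of_lt_mul
      rw [Nat.mul_comm p q]
      exact Nat.mul_lt_mul_of_pos_left hb (by omega)
    rw [mem_image]
    refine ⟨m % p, ?_, Nat.mod_add_div m p⟩
    rw [mem_filter, mem_range]
    have h1 := Nat.mod_le m p
    exact ⟨by omega, rfl, cn_eq hqp1 hq hm.2⟩
  have hcard : (((Icc 1 M).filter fun m : ℕ => (p : ℤ) ∣ ((q * m).choose m : ℤ) - (q : ℤ) ^ m).card : ℝ) ≤
      ((M / p : ℕ) + 1) * (q * ((q + 9) * (Y : ℝ) ^ (2 / 3 : ℝ))) := by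
    have h1 := (card_le_card hsub).trans card_biUnion_le
    have h2 : (((Icc 1 M).filter fun m : ℕ => (p : ℤ) ∣ ((q * m).choose m : ℤ) - (q : ℤ) ^ m).card : ℝ) ≤
        ∑ a ∈ range (M / p + 1), (((range q).biUnion fun t => (B a t).image fun b => b + p * a).card : ℝ) := by
      exact_mod_cast h1
    refine h2.trans ?_
    have h3 : ∀ a ∈ range (M / p + 1), (((range q).biUnion fun t => (B a t).image fun b => b + p * a).card : ℝ) ≤
        q * ((q + 9) * (Y : ℝ) ^ (2 / 3 : ℝ)) := by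
      intro a _
      have h4 : ((range q).biUnion fun t => (B a t).image fun b => b + p * a).card ≤ ∑ t ∈ range q, (B a t).card :=
        card_biUnion_le.trans (sum_le_sum fun t _ => card_image_le)
      have h5 : (((range q).biUnion fun t => (B a t).image fun b => b + p * a).card : ℝ) ≤
          ∑ t ∈ range q, ((B a t).card : ℝ) := by exact_mod_cast h4
      refine h5.trans ((sum_le_sum fun t _ => hB a t).trans ?_)
      rw [sum_const, card_range, nsmul_eq_mul]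
    refine (sum_le_sum h3).trans ?_
    rw [sum_const, card_range, nsmul_eq_mul]
    push_cast
    exact le_rfl
  refine hcard.trans ?_
  have hp0 : (0 : ℝ) < p := by exact_mod_cast hp.pos
  have hq0 : (0 : ℝ) ≤ q := Nat.cast_nonneg _
  have hM0 : (0 : ℝ) ≤ M := Nat.cast_nonneg _
  have hY0 : (0 : ℝ) ≤ Y := Nat.cast_nonneg _
  have hr1 : (0 : ℝ) ≤ (M : ℝ) * (p : ℝ) ^ (-(1 / 3) : ℝ) := by positivity
  have hr2 : (0 : ℝ) ≤ (M : ℝ) ^ (2 / 3 : ℝ) := by positivity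
  rcases lt_or_ge M p with hMp | hMp
  · rw [Nat.div_eq_of_lt hMp]
    have h1 : (Y : ℝ) ^ (2 / 3 : ℝ) ≤ (M : ℝ) ^ (2 / 3 : ℝ) :=
      Real.rpow_le_rpow hY0 (by exact_mod_cast (by omega : Y ≤ M)) (by norm_num)
    have h2 : (q : ℝ) * (q + 9) * (Y : ℝ) ^ (2 / 3 : ℝ) ≤ (q : ℝ) * (q + 9) * (M : ℝ) ^ (2 / 3 : ℝ) :=
      mul_le_mul_of_nonneg_left h1 (by positivity)
    have h3 : 0 ≤ (q : ℝ) * (q + 9) * ((M : ℝ) * (p : ℝ) ^ (-(1 / 3) : ℝ)) := by positivity
    have h4 : 0 ≤ (q : ℝ) * (q + 9) * (M : ℝ) ^ (2 / 3 : ℝ) := by positivity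
    push_cast
    linarith
  · have h1 : (Y : ℝ) ^ (2 / 3 : ℝ) ≤ (p : ℝ) ^ (2 / 3 : ℝ) :=
      Real.rpow_le_rpow hY0 (by exact_mod_cast hYp.le) (by norm_num)
    have h2 : ((M / p : ℕ) : ℝ) + 1 ≤ 2 * (M / p) := by
      have h3 : ((M / p : ℕ) : ℝ) ≤ (M : ℝ) / p := Nat.cast_div_le
      have h4 : (1 : ℝ) ≤ (M : ℝ) / p := by
        rw [le_div_iff₀ hp0, one_mul]
        exact_mod_cast hMp
      linarith
    have h3 : (p : ℝ) ^ (2 / 3 : ℝ) = p * (p : ℝ) ^ (-(1 / 3) : ℝ) := by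
      nth_rewrite 2 [← Real.rpow_one (p : ℝ)]
      rw [← Real.rpow_add hp0]
      norm_num
    have h5 : (((M / p : ℕ) : ℝ) + 1) * (q * ((q + 9) * (Y : ℝ) ^ (2 / 3 : ℝ))) ≤
        2 * (M / p) * (q * ((q + 9) * (p : ℝ) ^ (2 / 3 : ℝ))) := by
      apply mul_le_mul h2 _ (by positivity) (by positivity)
      exact mul_le_mul_of_nonneg_left (mul_le_mul_of_nonneg_left h1 (by positivity)) hq0
    refine h5.trans ?_
    rw [h3]
    have h6 : 2 * ((M : ℝ) / p) * (q * ((q + 9) * (p * (p : ℝ) ^ (-(1 / 3) : ℝ)))) =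
        2 * q * (q + 9) * (M * (p : ℝ) ^ (-(1 / 3) : ℝ)) := by
      field_simp
    rw [h6]
    have h7 : 0 ≤ 2 * (q : ℝ) * (q + 9) * (M : ℝ) ^ (2 / 3 : ℝ) := by positivity
    linarith

end Pool.Agent.QCS
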