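import Mathlib

/-!
QCS (MP_b78341_nt), module Small. Paper proof. C(q m, m) > q^m for m >= 2, by induction (Nat.add_choose_eq, two terms of Vandermonde):
C(q (m+1), m+1) >= C(q m, m) C(q, 1) + C(q m, m+1) C(q, 0) > q C(q m, m) for m >= 1. And C(q m, m) <= 2^(q m) (Nat.choose_le_two_pow),
so 0 < |D| <= 2^(q m), and 2^(number of prime factors of D) <= D.
redF: p prime, p | n = p m, n | C(qn, n) - q^n: Lucas C(q p m, p m) = C(q m, m) mod p (Choose.choose_modEq_choose_mod_mul_choose_div_nat),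
q^(p m) = q^m mod p (ZMod.pow_card).
-/

set_option autoImplicit false

namespace Pool.Agent.QCS

open Finset

theorem choose_step {q m : ℕ} (hq : 2 ≤ q) (hm : 1 ≤ m) :
    q * (q * m).choose m < (q * (m + 1)).choose (m + 1) := by
  have h1 : q * (m + 1) = q * m + q := by ring
  rw [h1, Nat.add_choose_eq]
  have h2 : ({(m, 1), (m + 1, 0)} : Finset (ℕ × ℕ)) ⊆ antidiagonal (m + 1) := by
    intro x hx
    rw [Finset.mem_insert, Finset.mem_singleton] at hx
    rw [Finset.HasAntidiagonal.mem_antidiagonal]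
    rcases hx with rfl | rfl
    · rfl
    · rfl
  refine lt_of_lt_of_le ?_ (Finset.sum_le_sum_of_subset h2)
  rw [Finset.sum_pair (by
    intro h
    have := congrArg Prod.snd h
    simp at this)]
  simp only [Nat.choose_one_right, Nat.choose_zero_right, mul_one]
  have h3 : 0 < (q * m).choose (m + 1) := Nat.choose_pos (by nlinarith)
  nlinarith

theorem pow_le_choose {q m : ℕ} (hq : 2 ≤ q) (hm : 1 ≤ m) : q ^ m ≤ (q * m).choose m := by
  induction m, hm using Nat.le_induction with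
  | base => simp
  | succ m hm ih =>
    rw [pow_succ, mul_comm]
    exact (Nat.mul_le_mul_left q ih).trans (choose_step hq hm).le

theorem pow_lt_choose {q m : ℕ} (hq : 2 ≤ q) (hm : 2 ≤ m) : q ^ m < (q * m).choose m := by
  obtain ⟨k, rfl⟩ : ∃ k, m = k + 1 := ⟨m - 1, by omega⟩
  rw [pow_succ, mul_comm]
  exact lt_of_le_of_lt (Nat.mul_le_mul_left q (pow_le_choose hq (by omega)))
    (choose_step hq (by omega))

theorem two_pow_card_primeFactors_le {n : ℕ} (hn : n ≠ 0) : 2 ^ n.primeFactors.card ≤ n := by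
  have h1 : 2 ^ n.primeFactors.card ≤ ∏ p ∈ n.primeFactors, p := by
    rw [← Finset.prod_const]
    exact Finset.prod_le_prod' fun p hp => (Nat.prime_of_mem_primeFactors hp).two_le
  exact h1.trans (Nat.le_of_dvd (Nat.pos_of_ne_zero hn) (Nat.prod_primeFactors_dvd n))

theorem primes_card {q m : ℕ} (hq : 2 ≤ q) (hm : 2 ≤ m) (X : ℕ) :
    ((range (X + 1)).filter fun p : ℕ => p.Prime ∧ (p : ℤ) ∣ ((q * m).choose m : ℤ) - (q : ℤ) ^ m).card ≤ q * m := by
  have hlt := pow_lt_choose hq hm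
  set D : ℕ := (q * m).choose m - q ^ m with hD
  have hD0 : D ≠ 0 := by omega
  have hcast : ((q * m).choose m : ℤ) - (q : ℤ) ^ m = (D : ℤ) := by
    rw [hD, Nat.cast_sub hlt.le]
    push_cast
    ring
  have hsub : ((range (X + 1)).filter fun p : ℕ => p.Prime ∧
      (p : ℤ) ∣ ((q * m).choose m : ℤ) - (q : ℤ) ^ m) ⊆ D.primeFactors := by
    intro p hp
    rw [Finset.mem_filter] at hp
    rw [Nat.mem_primeFactors]
    refine ⟨hp.2.1, ?_, hD0⟩
    have h := hp.2.2
    rw [hcast] at h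
    exact Int.natCast_dvd_natCast.1 h
  refine (Finset.card_le_card hsub).trans ?_
  have h1 : D ≤ 2 ^ (q * m) := (Nat.sub_le _ _).trans (Nat.choose_le_two_pow _ _)
  exact (Nat.pow_le_pow_iff_right (by norm_num : 1 < 2)).1 ((two_pow_card_primeFactors_le hD0).trans h1)

theorem redF {p q m : ℕ} (hp : p.Prime) (h : ((p * m : ℕ) : ℤ) ∣ ((q * (p * m)).choose (p * m) : ℤ) - (q : ℤ) ^ (p * m)) :
    (p : ℤ) ∣ ((q * m).choose m : ℤ) - (q : ℤ) ^ m := by
  have : Fact p.Prime := ⟨hp⟩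
  have hdvd : (p : ℤ) ∣ ((q * (p * m)).choose (p * m) : ℤ) - (q : ℤ) ^ (p * m) := by
    refine dvd_trans ?_ h
    rw [Nat.cast_mul]
    exact dvd_mul_right _ _
  have hl : (q * (p * m)).choose (p * m) ≡ (q * m).choose m [MOD p] := by
    have h1 := Choose.choose_modEq_choose_mod_mul_choose_div_nat (p := p) (n := q * (p * m)) (k := p * m)
    have h2 : q * (p * m) = p * (q * m) := by ring
    rw [h2, Nat.mul_mod_right, Nat.mul_mod_right, Nat.mul_div_cancel_left _ hp.pos,
      Nat.mul_div_cancel_left _ hp.pos, Nat.choose_self, one_mul] at h1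
    rw [h2]
    exact h1
  have hl' : (((q * (p * m)).choose (p * m) : ℕ) : ZMod p) = (((q * m).choose m : ℕ) : ZMod p) :=
    (ZMod.natCast_eq_natCast_iff _ _ _).2 hl
  have h0 : (((((q * (p * m)).choose (p * m) : ℕ) : ℤ) - (q : ℤ) ^ (p * m) : ℤ) : ZMod p) = 0 :=
    (ZMod.intCast_zmod_eq_zero_iff_dvd _ _).2 hdvd
  refine (ZMod.intCast_zmod_eq_zero_iff_dvd _ _).1 ?_
  push_cast at h0 ⊢
  rw [hl', pow_mul, ZMod.pow_card] at h0
  exact h0

end Pool.Agent.QCS
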