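import Mathlib

/-!
QCS (MP_b78341_nt), module Sums. Paper proof. n^(-4/3) <= 3 ((n-1)^(-1/3) - n^(-1/3)) for n >= 2 and n^(-2/3) <= 3 (n^(1/3) - (n-1)^(1/3))
for n >= 1 (mean value, or algebra with cube roots a = (n-1)^(1/3), b = n^(1/3), b^3 - a^3 = 1: b - a = 1/(a^2 + a b + b^2) >= 1/(3 b^2)
and 1/a - 1/b = (b - a)/(a b) >= 1/(3 b^2 a b) >= 1/(3 b^4)), telescoping.
-/

set_option autoImplicit false

namespace Pool.Agent.QCS

open Finset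

theorem cube_root (n : ℕ) : ∃ a : ℝ, 0 ≤ a ∧ a ^ 3 = n ∧ (n : ℝ) ^ (1 / 3 : ℝ) = a := by
  refine ⟨(n : ℝ) ^ (1 / 3 : ℝ), by positivity, ?_, rfl⟩
  rw [← Real.rpow_natCast, ← Real.rpow_mul (by positivity)]
  norm_num

theorem cube_step {a b : ℝ} (ha : 0 ≤ a) (hb : 0 ≤ b) (h : b ^ 3 = a ^ 3 + 1) :
    a < b ∧ 1 ≤ 3 * (b - a) * b ^ 2 := by
  have hab : a < b := by
    by_contra hc
    push Not at hc
    have : b ^ 3 ≤ a ^ 3 := pow_le_pow_left₀ hb hc 3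
    linarith
  refine ⟨hab, ?_⟩
  have h1 : (b - a) * (a ^ 2 + a * b + b ^ 2) = 1 := by ring_nf; linarith
  have h2 : a ^ 2 + a * b + b ^ 2 ≤ 3 * b ^ 2 := by nlinarith
  nlinarith [mul_le_mul_of_nonneg_left h2 (sub_nonneg.2 hab.le)]

theorem step_a (n : ℕ) (hn : 1 ≤ n) : ((n + 1 : ℕ) : ℝ) ^ (-(4 / 3) : ℝ) ≤
    3 * ((n : ℝ) ^ (-(1 / 3) : ℝ) - ((n + 1 : ℕ) : ℝ) ^ (-(1 / 3) : ℝ)) := by
  obtain ⟨a, ha, ha3, hae⟩ := cube_root n
  obtain ⟨b, hb, hb3, hbe⟩ := cube_root (n + 1)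
  have hn0 : (0 : ℝ) < n := by exact_mod_cast hn
  have hapos : 0 < a := by
    rcases ha.lt_or_eq with h | h
    · exact h
    · rw [← h] at ha3; norm_num at ha3; linarith
  have h3 : b ^ 3 = a ^ 3 + 1 := by rw [hb3, ha3]; push_cast; ring
  obtain ⟨hab, h4⟩ := cube_step ha hb h3
  have hbpos : 0 < b := hapos.trans hab
  rw [Real.rpow_neg (by positivity), Real.rpow_neg (by positivity), Real.rpow_neg (by positivity),
    hae, hbe]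
  have e4 : ((n + 1 : ℕ) : ℝ) ^ (4 / 3 : ℝ) = b ^ 4 := by
    rw [← hbe, ← Real.rpow_natCast, ← Real.rpow_mul (by positivity)]
    norm_num
  rw [e4]
  have e5 : a⁻¹ - b⁻¹ = (b - a) / (a * b) := by field_simp
  rw [e5, inv_eq_one_div, div_le_iff₀ (by positivity)]
  have e6 : 3 * ((b - a) / (a * b)) * b ^ 4 = 3 * (b - a) * b ^ 2 * (b / a) := by
    field_simp
  rw [e6]
  have h7 : 1 ≤ b / a := by rw [le_div_iff₀ hapos]; linarith
  nlinarith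

theorem step_b (n : ℕ) : ((n + 1 : ℕ) : ℝ) ^ (-(2 / 3) : ℝ) ≤
    3 * (((n + 1 : ℕ) : ℝ) ^ (1 / 3 : ℝ) - (n : ℝ) ^ (1 / 3 : ℝ)) := by
  obtain ⟨a, ha, ha3, hae⟩ := cube_root n
  obtain ⟨b, hb, hb3, hbe⟩ := cube_root (n + 1)
  have h3 : b ^ 3 = a ^ 3 + 1 := by rw [hb3, ha3]; push_cast; ring
  obtain ⟨hab, h4⟩ := cube_step ha hb h3
  have hbpos : 0 < b := lt_of_le_of_lt ha hab
  rw [Real.rpow_neg (by positivity), hae, hbe]
  have e4 : ((n + 1 : ℕ) : ℝ) ^ (2 / 3 : ℝ) = b ^ 2 := by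
    rw [← hbe, ← Real.rpow_natCast, ← Real.rpow_mul (by positivity)]
    norm_num
  rw [e4, inv_eq_one_div, div_le_iff₀ (by positivity)]
  exact h4

theorem sum_a (y z : ℕ) (hy : 1 ≤ y) :
    ∑ n ∈ Ioc y z, (n : ℝ) ^ (-(4 / 3) : ℝ) ≤ 3 * (y : ℝ) ^ (-(1 / 3) : ℝ) := by
  rcases le_total z y with h | h
  · rw [Ioc_eq_empty_of_le h, sum_empty]
    positivity
  · obtain ⟨k, rfl⟩ := Nat.exists_eq_add_of_le h
    have key : ∀ k : ℕ, ∑ n ∈ Ioc y (y + k), (n : ℝ) ^ (-(4 / 3) : ℝ) ≤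
        3 * ((y : ℝ) ^ (-(1 / 3) : ℝ) - ((y + k : ℕ) : ℝ) ^ (-(1 / 3) : ℝ)) := by
      intro k
      induction k with
      | zero => simp
      | succ k ih =>
        rw [← add_assoc, sum_Ioc_succ_top (by omega)]
        have := step_a (y + k) (by omega)
        linarith
    have h1 := key k
    have h2 : (0 : ℝ) ≤ ((y + k : ℕ) : ℝ) ^ (-(1 / 3) : ℝ) := by positivity
    linarith

theorem sum_b (z : ℕ) : ∑ n ∈ Icc 1 z, (n : ℝ) ^ (-(2 / 3) : ℝ) ≤ 3 * (z : ℝ) ^ (1 / 3 : ℝ) := by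
  induction z with
  | zero => simp
  | succ k ih =>
    rw [sum_Icc_succ_top (by omega)]
    have := step_b k
    linarith

end Pool.Agent.QCS
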