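import Pool.Agent.QCS.Cnt
import Pool.Agent.QCS.Small
import Pool.Agent.QCS.Sums

/-!
QCS (MP_b78341_nt), module Comb. Paper proof. n composite with a prime factor > y: p = the largest prime factor (or any prime factor > y),
n = p m, m >= 2 (n is not prime), p | C(qm,m) - q^m (redF). If m <= w: at most sum_(m <= w) q m <= q w^2 pairs (p, m) (primes_card with X = x).
If m > w: p <= x / m <= x / w =: z, and for each prime p in (y, z] at most cnt with M = x / p (natural division, <= (x : ℝ) / p):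
2 q (q+9) (x p^(-4/3) + x^(2/3) p^(-2/3)); sum_a, sum_b.
-/

set_option autoImplicit false

namespace Pool.Agent.QCS

section aux

open Finset

/-- the pairs with a small cofactor `m` -/
theorem comb_small {q : ℕ} (hq : 2 ≤ q) (x w : ℕ) :
    ((Icc 2 w).sigma fun m : ℕ => (range (x + 1)).filter fun p : ℕ =>
      p.Prime ∧ (p : ℤ) ∣ ((q * m).choose m : ℤ) - (q : ℤ) ^ m).card ≤ q * w ^ 2 := by
  rw [Finset.card_sigma]
  have h1 : ∑ m ∈ Icc 2 w, ((range (x + 1)).filter fun p : ℕ =>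
      p.Prime ∧ (p : ℤ) ∣ ((q * m).choose m : ℤ) - (q : ℤ) ^ m).card ≤ ∑ m ∈ Icc 2 w, q * w :=
    sum_le_sum fun m hm => (primes_card hq (mem_Icc.1 hm).1 x).trans
      (Nat.mul_le_mul_left q (mem_Icc.1 hm).2)
  refine h1.trans ?_
  rw [sum_const, smul_eq_mul, Nat.card_Icc]
  have h2 : (w + 1 - 2) * (q * w) ≤ w * (q * w) := Nat.mul_le_mul_right _ (by omega)
  refine h2.trans (le_of_eq (by ring))

/-- the pairs with a large cofactor, one prime -/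
theorem comb_prime {p q : ℕ} (hp : p.Prime) (hq : 2 ≤ q) (hqp : q ^ 3 < p) (x : ℕ) (hx : p ≤ x) :
    (((Icc 1 (x / p)).filter fun m : ℕ =>
      (p : ℤ) ∣ ((q * m).choose m : ℤ) - (q : ℤ) ^ m).card : ℝ) ≤
      2 * q * (q + 9) * ((x : ℝ) * (p : ℝ) ^ (-(4 / 3) : ℝ) +
        (x : ℝ) ^ (2 / 3 : ℝ) * (p : ℝ) ^ (-(2 / 3) : ℝ)) := by
  have hp0 : (0 : ℝ) < p := by exact_mod_cast hp.pos
  have hM1 : 1 ≤ x / p := (Nat.le_div_iff_mul_le hp.pos).2 (by omega)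
  have hM : ((x / p : ℕ) : ℝ) ≤ (x : ℝ) / p := Nat.cast_div_le
  refine (cnt hp hq hqp (x / p) hM1).trans ?_
  have h1 : ((x / p : ℕ) : ℝ) * (p : ℝ) ^ (-(1 / 3) : ℝ) ≤ (x : ℝ) * (p : ℝ) ^ (-(4 / 3) : ℝ) := by
    have h2 : (p : ℝ) ^ (-(4 / 3) : ℝ) = (p : ℝ)⁻¹ * (p : ℝ) ^ (-(1 / 3) : ℝ) := by
      rw [← Real.rpow_neg_one, ← Real.rpow_add hp0]
      norm_num
    rw [h2, ← mul_assoc]
    exact mul_le_mul_of_nonneg_right hM (by positivity)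
  have h3 : ((x / p : ℕ) : ℝ) ^ (2 / 3 : ℝ) ≤ (x : ℝ) ^ (2 / 3 : ℝ) * (p : ℝ) ^ (-(2 / 3) : ℝ) := by
    rw [Real.rpow_neg hp0.le, ← div_eq_mul_inv, ← Real.div_rpow (by positivity) hp0.le]
    exact Real.rpow_le_rpow (by positivity) hM (by norm_num)
  have h4 : (0 : ℝ) ≤ 2 * q * (q + 9) := by positivity
  exact mul_le_mul_of_nonneg_left (add_le_add h1 h3) h4

/-- the pairs with a large cofactor -/
theorem comb_large {q : ℕ} (hq : 2 ≤ q) (x y w : ℕ) (hy : q ^ 3 ≤ y) :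
    ((((Ioc y (x / w)).filter Nat.Prime).sigma fun p : ℕ => (Icc 1 (x / p)).filter fun m : ℕ =>
      (p : ℤ) ∣ ((q * m).choose m : ℤ) - (q : ℤ) ^ m).card : ℝ) ≤
      6 * q * (q + 9) * ((x : ℝ) * (y : ℝ) ^ (-(1 / 3) : ℝ) +
        (x : ℝ) ^ (2 / 3 : ℝ) * ((x : ℝ) / w) ^ (1 / 3 : ℝ)) := by
  rw [Finset.card_sigma, Nat.cast_sum]
  have hy1 : 1 ≤ y := by
    have : 0 < q ^ 3 := by positivity
    omega
  have h1 : ∑ p ∈ (Ioc y (x / w)).filter Nat.Prime, (((Icc 1 (x / p)).filter fun m : ℕ =>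
      (p : ℤ) ∣ ((q * m).choose m : ℤ) - (q : ℤ) ^ m).card : ℝ) ≤
      ∑ p ∈ (Ioc y (x / w)).filter Nat.Prime, 2 * q * (q + 9) *
        ((x : ℝ) * (p : ℝ) ^ (-(4 / 3) : ℝ) + (x : ℝ) ^ (2 / 3 : ℝ) * (p : ℝ) ^ (-(2 / 3) : ℝ)) := by
    refine sum_le_sum fun p hp => ?_
    rw [mem_filter, mem_Ioc] at hp
    exact comb_prime hp.2 hq (by omega) x (hp.1.2.trans (Nat.div_le_self x w))
  have h2 : ∑ p ∈ (Ioc y (x / w)).filter Nat.Prime, 2 * q * (q + 9) *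
        ((x : ℝ) * (p : ℝ) ^ (-(4 / 3) : ℝ) + (x : ℝ) ^ (2 / 3 : ℝ) * (p : ℝ) ^ (-(2 / 3) : ℝ)) ≤
      ∑ p ∈ Ioc y (x / w), 2 * q * (q + 9) *
        ((x : ℝ) * (p : ℝ) ^ (-(4 / 3) : ℝ) + (x : ℝ) ^ (2 / 3 : ℝ) * (p : ℝ) ^ (-(2 / 3) : ℝ)) :=
    sum_le_sum_of_subset_of_nonneg (filter_subset _ _) fun p _ _ => by positivity
  have h3 : ∑ p ∈ Ioc y (x / w), 2 * q * (q + 9) *
        ((x : ℝ) * (p : ℝ) ^ (-(4 / 3) : ℝ) + (x : ℝ) ^ (2 / 3 : ℝ) * (p : ℝ) ^ (-(2 / 3) : ℝ)) =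
      2 * q * (q + 9) * ((x : ℝ) * ∑ p ∈ Ioc y (x / w), (p : ℝ) ^ (-(4 / 3) : ℝ) +
        (x : ℝ) ^ (2 / 3 : ℝ) * ∑ p ∈ Ioc y (x / w), (p : ℝ) ^ (-(2 / 3) : ℝ)) := by
    rw [← mul_sum, sum_add_distrib, ← mul_sum, ← mul_sum]
  have h4 := sum_a y (x / w) hy1
  have h5 : ∑ p ∈ Ioc y (x / w), (p : ℝ) ^ (-(2 / 3) : ℝ) ≤ 3 * ((x : ℝ) / w) ^ (1 / 3 : ℝ) := by
    have h6 : ∑ p ∈ Ioc y (x / w), (p : ℝ) ^ (-(2 / 3) : ℝ) ≤
        ∑ p ∈ Icc 1 (x / w), (p : ℝ) ^ (-(2 / 3) : ℝ) := by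
      refine sum_le_sum_of_subset_of_nonneg (fun p hp => ?_) fun p _ _ => by positivity
      rw [mem_Ioc] at hp
      rw [mem_Icc]
      omega
    refine h6.trans ((sum_b (x / w)).trans ?_)
    have h7 : ((x / w : ℕ) : ℝ) ≤ (x : ℝ) / w := Nat.cast_div_le
    exact mul_le_mul_of_nonneg_left (Real.rpow_le_rpow (by positivity) h7 (by norm_num))
      (by norm_num)
  refine (h1.trans h2).trans ?_
  rw [h3]
  have h8 : (0 : ℝ) ≤ 2 * q * (q + 9) := by positivity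
  have h9 : (x : ℝ) * ∑ p ∈ Ioc y (x / w), (p : ℝ) ^ (-(4 / 3) : ℝ) ≤
      x * (3 * (y : ℝ) ^ (-(1 / 3) : ℝ)) := mul_le_mul_of_nonneg_left h4 (by positivity)
  have h10 : (x : ℝ) ^ (2 / 3 : ℝ) * ∑ p ∈ Ioc y (x / w), (p : ℝ) ^ (-(2 / 3) : ℝ) ≤
      (x : ℝ) ^ (2 / 3 : ℝ) * (3 * ((x : ℝ) / w) ^ (1 / 3 : ℝ)) :=
    mul_le_mul_of_nonneg_left h5 (by positivity)
  refine (mul_le_mul_of_nonneg_left (add_le_add h9 h10) h8).trans (le_of_eq (by ring))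

end aux

open Finset Classical

theorem comb {q : ℕ} (hq : 2 ≤ q) (x y w : ℕ) (hy : q ^ 3 ≤ y) (hw : 1 ≤ w) :
    (((Icc 2 x).filter fun n : ℕ => ¬ n.Prime ∧ (∃ p : ℕ, p.Prime ∧ p ∣ n ∧ y < p) ∧
      (n : ℤ) ∣ ((q * n).choose n : ℤ) - (q : ℤ) ^ n).card : ℝ) ≤
      q * (w : ℝ) ^ 2 + 6 * q * (q + 9) * ((x : ℝ) * (y : ℝ) ^ (-(1 / 3) : ℝ) +
        (x : ℝ) ^ (2 / 3 : ℝ) * ((x : ℝ) / w) ^ (1 / 3 : ℝ)) := by
  have h1 := comb_small hq x w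
  have h2 := comb_large hq x y w hy
  obtain ⟨A, hA⟩ : ∃ A, A = ((Icc 2 w).sigma fun m : ℕ => (range (x + 1)).filter fun p : ℕ =>
      p.Prime ∧ (p : ℤ) ∣ ((q * m).choose m : ℤ) - (q : ℤ) ^ m) := ⟨_, rfl⟩
  obtain ⟨B, hB⟩ : ∃ B, B = (((Ioc y (x / w)).filter Nat.Prime).sigma fun p : ℕ =>
      (Icc 1 (x / p)).filter fun m : ℕ => (p : ℤ) ∣ ((q * m).choose m : ℤ) - (q : ℤ) ^ m) :=
    ⟨_, rfl⟩
  rw [← hA] at h1
  rw [← hB] at h2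
  have hsub : ((Icc 2 x).filter fun n : ℕ => ¬ n.Prime ∧ (∃ p : ℕ, p.Prime ∧ p ∣ n ∧ y < p) ∧
      (n : ℤ) ∣ ((q * n).choose n : ℤ) - (q : ℤ) ^ n) ⊆
      A.image (fun a => a.2 * a.1) ∪ B.image (fun a => a.1 * a.2) := by
    intro n hn
    rw [mem_filter, mem_Icc] at hn
    obtain ⟨⟨hn2, hnx⟩, hnp, ⟨p, hp, ⟨m, rfl⟩, hyp⟩, hdvd⟩ := hn
    have hm2 : 2 ≤ m := by
      by_contra hcon
      have h3 : m = 0 ∨ m = 1 := by omega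
      rcases h3 with rfl | rfl
      · omega
      · exact hnp (by rwa [mul_one])
    have hd := redF hp hdvd
    have hpx : p ≤ x := (Nat.le_mul_of_pos_right p (by omega)).trans hnx
    rw [mem_union]
    by_cases hmw : m ≤ w
    · left
      rw [mem_image, hA]
      refine ⟨⟨m, p⟩, ?_, rfl⟩
      rw [mem_sigma, mem_filter, mem_Icc, mem_range]
      exact ⟨⟨hm2, hmw⟩, by dsimp only; omega, hp, hd⟩
    · right
      rw [mem_image, hB]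
      refine ⟨⟨p, m⟩, ?_, rfl⟩
      rw [mem_sigma, mem_filter, mem_filter, mem_Ioc, mem_Icc]
      refine ⟨⟨⟨hyp, (Nat.le_div_iff_mul_le (by omega)).2 ?_⟩, hp⟩,
        ⟨by dsimp only; omega, (Nat.le_div_iff_mul_le hp.pos).2 ?_⟩, hd⟩
      · exact (Nat.mul_le_mul_left p (by omega)).trans hnx
      · rw [mul_comm]
        exact hnx
  have h3 := (card_le_card hsub).trans ((card_union_le _ _).trans
    (add_le_add card_image_le card_image_le))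
  have h4 : (((Icc 2 x).filter fun n : ℕ => ¬ n.Prime ∧ (∃ p : ℕ, p.Prime ∧ p ∣ n ∧ y < p) ∧
      (n : ℤ) ∣ ((q * n).choose n : ℤ) - (q : ℤ) ^ n).card : ℝ) ≤ (A.card : ℝ) + B.card := by
    exact_mod_cast h3
  have h5 : (A.card : ℝ) ≤ q * (w : ℝ) ^ 2 := by exact_mod_cast h1
  linarith

end Pool.Agent.QCS
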