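import Mathlib
import Pool.Agent.SmR.Rankin

/-!
QCS (MP_b78341_nt), module Smooth: the number of `n ≤ x` all whose prime factors are at most
`(log x) ^ B` is at most a constant times `x / (log x) ^ A`, by the bound of Rankin in `SmR`.
-/

set_option autoImplicit false

namespace Pool.Agent.QCS

open Finset Classical

theorem smooth (A B : ℕ) (hB : 1 ≤ B) : ∃ C : ℝ, 0 < C ∧ ∀ x : ℕ, 3 ≤ x →
    (({n ∈ Icc 1 x | ∀ p : ℕ, p.Prime → p ∣ n → (p : ℝ) ≤ Real.log x ^ B} : Finset ℕ).card : ℝ) ≤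
      C * (x / Real.log x ^ A) := by
  obtain ⟨C, hC, hR⟩ := Pool.Agent.SmR.smooth_rankin
  have hb : (0 : ℝ) < (B : ℝ) + 1 := by positivity
  have e1 : ∀ᶠ L : ℝ in Filter.atTop, ((B : ℝ) + 1) * Real.log L ≤ Real.sqrt L := by
    have h := (isLittleO_log_rpow_atTop (r := 1 / 2) (by norm_num)).bound
      (one_div_pos.2 hb)
    filter_upwards [h, Filter.eventually_ge_atTop 1] with L h1 hL
    have h0 : (0 : ℝ) ≤ L := by linarith
    rw [Real.norm_of_nonneg (Real.log_nonneg hL),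
      Real.norm_of_nonneg (Real.rpow_nonneg h0 _), ← Real.sqrt_eq_rpow] at h1
    calc ((B : ℝ) + 1) * Real.log L ≤ ((B : ℝ) + 1) * (1 / ((B : ℝ) + 1) * Real.sqrt L) :=
          mul_le_mul_of_nonneg_left h1 hb.le
      _ = Real.sqrt L := by field_simp
  have e2 : ∀ᶠ L : ℝ in Filter.atTop, 2 ≤ Real.exp L / L ^ B :=
    (Real.tendsto_exp_div_pow_atTop B).eventually_ge_atTop 2
  obtain ⟨L₀, hL₀⟩ := Filter.eventually_atTop.1
    (e1.and (e2.and (Filter.eventually_ge_atTop (128 : ℝ))))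
  have hK : (0 : ℝ) ≤ max 1 L₀ ^ A := by positivity
  refine ⟨C * (Nat.factorial (2 * A + 1)) + max 1 L₀ ^ A, by positivity, fun x hx => ?_⟩
  obtain ⟨L, hL⟩ : ∃ L : ℝ, L = Real.log x := ⟨_, rfl⟩
  rw [← hL]
  have hx0 : (0 : ℝ) < x := by exact_mod_cast (by omega : 0 < x)
  have hx1 : (1 : ℝ) < x := by exact_mod_cast (by omega : 1 < x)
  have hLpos : 0 < L := by
    rw [hL]
    exact Real.log_pos hx1
  have hxL : (x : ℝ) = Real.exp L := by rw [hL, Real.exp_log hx0]
  have hq : (0 : ℝ) < x / L ^ A := by positivity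
  rcases lt_or_ge L L₀ with hlt | hge
  · have h1 : (({n ∈ Icc 1 x | ∀ p : ℕ, p.Prime → p ∣ n → (p : ℝ) ≤ L ^ B} : Finset ℕ).card : ℝ) ≤
        x := by
      have := card_filter_le (Icc 1 x)
        (fun n => ∀ p : ℕ, p.Prime → p ∣ n → (p : ℝ) ≤ L ^ B)
      rw [Nat.card_Icc, Nat.add_sub_cancel] at this
      exact_mod_cast this
    have h2 : L ^ A ≤ max 1 L₀ ^ A :=
      pow_le_pow_left₀ hLpos.le (hlt.le.trans (le_max_right _ _)) A
    have h3 : (x : ℝ) ≤ max 1 L₀ ^ A * (x / L ^ A) := by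
      rw [mul_div_assoc', le_div_iff₀ (by positivity), mul_comm]
      exact mul_le_mul_of_nonneg_right h2 hx0.le
    have h4 : (0 : ℝ) ≤ C * (Nat.factorial (2 * A + 1)) * (x / L ^ A) := by positivity
    rw [add_mul]
    linarith
  · obtain ⟨h1, h2, h3⟩ := hL₀ L hge
    have hL1 : (1 : ℝ) ≤ L := by linarith
    have hLB : (128 : ℝ) ≤ L ^ B := by
      calc (128 : ℝ) ≤ L ^ 1 := by rw [pow_one]; exact h3
        _ ≤ L ^ B := pow_le_pow_right₀ hL1 hB
    have h2' : 2 * L ^ B ≤ x := by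
      rw [hxL]
      exact (le_div_iff₀ (by positivity)).1 h2
    obtain ⟨Y, hY⟩ : ∃ Y : ℕ, Y = ⌊L ^ B⌋₊ + 64 := ⟨_, rfl⟩
    have hYle : (Y : ℝ) ≤ 2 * L ^ B := by
      rw [hY]
      push_cast
      have := Nat.floor_le (show (0 : ℝ) ≤ L ^ B by positivity)
      linarith
    have hYx : Y ≤ x := by exact_mod_cast hYle.trans h2'
    have hY64 : (64 : ℝ) ≤ Y := by
      rw [hY]
      push_cast
      have := Nat.cast_nonneg (α := ℝ) ⌊L ^ B⌋₊
      linarith
    have hmain := hR x Y (by omega) hYx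
      ({n ∈ Icc 1 x | ∀ p : ℕ, p.Prime → p ∣ n → (p : ℝ) ≤ L ^ B}) (filter_subset _ _)
      (by
        intro m hm p hp hpm
        have h5 := (mem_filter.1 hm).2 p hp hpm
        have h6 : p ≤ ⌊L ^ B⌋₊ := Nat.le_floor h5
        omega)
    have hlogY : Real.log Y ≤ Real.sqrt L := by
      refine le_trans ?_ h1
      have h5 : (Y : ℝ) ≤ L ^ (B + 1) := by
        rw [pow_succ]
        have : (0 : ℝ) ≤ L ^ B := by positivity
        nlinarith
      calc Real.log Y ≤ Real.log (L ^ (B + 1)) := Real.log_le_log (by linarith) h5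
        _ = ((B : ℝ) + 1) * Real.log L := by rw [Real.log_pow]; push_cast; ring
    have hlogY0 : 0 < Real.log Y := Real.log_pos (by linarith)
    have hs : 0 < Real.sqrt L := Real.sqrt_pos.2 hLpos
    have hss : Real.sqrt L * Real.sqrt L = L := Real.mul_self_sqrt hLpos.le
    have hexp : Real.exp (-(Real.log x / Real.log Y)) ≤ Real.exp (-Real.sqrt L) := by
      apply Real.exp_le_exp.2
      apply neg_le_neg
      rw [le_div_iff₀ hlogY0, ← hL]
      calc Real.sqrt L * Real.log Y ≤ Real.sqrt L * Real.sqrt L :=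
            mul_le_mul_of_nonneg_left hlogY hs.le
        _ = L := hss
    have hpow : Real.sqrt L ^ (2 * A) = L ^ A := by
      rw [pow_mul, Real.sq_sqrt hLpos.le]
    have hfac := Real.pow_div_factorial_le_exp (Real.sqrt L) hs.le (2 * A + 1)
    have hfin : Real.sqrt L * Real.exp (-Real.sqrt L) ≤
        (Nat.factorial (2 * A + 1)) / L ^ A := by
      rw [le_div_iff₀ (by positivity), Real.exp_neg]
      rw [div_le_iff₀ (by positivity), pow_succ, hpow] at hfac
      have he : 0 < Real.exp (Real.sqrt L) := Real.exp_pos _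
      calc Real.sqrt L * (Real.exp (Real.sqrt L))⁻¹ * L ^ A
          = (L ^ A * Real.sqrt L) / Real.exp (Real.sqrt L) := by ring
        _ ≤ (Nat.factorial (2 * A + 1)) := by
            rw [div_le_iff₀ he]
            linarith
    calc (({n ∈ Icc 1 x | ∀ p : ℕ, p.Prime → p ∣ n → (p : ℝ) ≤ L ^ B} : Finset ℕ).card : ℝ)
        ≤ C * x * Real.log Y * Real.exp (-(Real.log x / Real.log Y)) := hmain
      _ ≤ C * x * Real.sqrt L * Real.exp (-Real.sqrt L) := by
          gcongr
      _ = C * x * (Real.sqrt L * Real.exp (-Real.sqrt L)) := by ring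
      _ ≤ C * x * ((Nat.factorial (2 * A + 1)) / L ^ A) := by gcongr
      _ = C * (Nat.factorial (2 * A + 1)) * (x / L ^ A) := by ring
      _ ≤ (C * (Nat.factorial (2 * A + 1)) + max 1 L₀ ^ A) * (x / L ^ A) := by
          refine mul_le_mul_of_nonneg_right ?_ hq.le
          linarith

end Pool.Agent.QCS
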