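import Pool.Agent.QCS.Comb
import Pool.Agent.QCS.Smooth

/-!
QCS (MP_b78341_nt), module Main. Paper proof. B = 3 A + 3, x large: y = floor of (log x)^B >= q^3, w = floor of x^(1/4) (>= 1): a composite solution is either
smooth (all prime factors <= (log x)^B) or counted in comb; q w^2 <= q x^(1/2), x y^(-1/3) <= 2 x / (log x)^(A+1),
x^(2/3) (x/w)^(1/3) <= 2 x^(2/3 + 1/4) = 2 x^(11/12). For x below the threshold the number is at most x; enlarge C.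
-/

set_option autoImplicit false

namespace Pool.Agent.QCS

open Finset Classical

/-- the count splits into smooth numbers and numbers with a prime factor above the floor -/
theorem main_split {q : ℕ} (x : ℕ) (T : ℝ) (hT : 0 ≤ T) :
    (((Icc 2 x).filter fun n : ℕ => ¬ n.Prime ∧ (n : ℤ) ∣ ((q * n).choose n : ℤ) - (q : ℤ) ^ n).card : ℝ) ≤
      (({n ∈ Icc 1 x | ∀ p : ℕ, p.Prime → p ∣ n → (p : ℝ) ≤ T} : Finset ℕ).card : ℝ) +
      (((Icc 2 x).filter fun n : ℕ => ¬ n.Prime ∧ (∃ p : ℕ, p.Prime ∧ p ∣ n ∧ ⌊T⌋₊ < p) ∧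
      (n : ℤ) ∣ ((q * n).choose n : ℤ) - (q : ℤ) ^ n).card : ℝ) := by
  have h : ((Icc 2 x).filter fun n : ℕ => ¬ n.Prime ∧ (n : ℤ) ∣ ((q * n).choose n : ℤ) - (q : ℤ) ^ n) ⊆
      ({n ∈ Icc 1 x | ∀ p : ℕ, p.Prime → p ∣ n → (p : ℝ) ≤ T} : Finset ℕ) ∪
      ((Icc 2 x).filter fun n : ℕ => ¬ n.Prime ∧ (∃ p : ℕ, p.Prime ∧ p ∣ n ∧ ⌊T⌋₊ < p) ∧
      (n : ℤ) ∣ ((q * n).choose n : ℤ) - (q : ℤ) ^ n) := by
    intro n hn
    rw [mem_filter, mem_Icc] at hn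
    obtain ⟨⟨h2, hx⟩, hp, hd⟩ := hn
    rw [mem_union, mem_filter, mem_filter, mem_Icc, mem_Icc]
    by_cases hs : ∀ p : ℕ, p.Prime → p ∣ n → (p : ℝ) ≤ T
    · left
      exact ⟨⟨by omega, hx⟩, hs⟩
    · right
      push Not at hs
      obtain ⟨p, hpp, hpn, hpT⟩ := hs
      exact ⟨⟨h2, hx⟩, hp, ⟨p, hpp, hpn, (Nat.floor_lt hT).2 hpT⟩, hd⟩
  have h1 := (card_le_card h).trans (card_union_le _ _)
  exact_mod_cast h1

/-- the real estimates, for large x -/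
theorem main_est {x L w y : ℝ} (A : ℕ) (hx : 1 ≤ x) (hL : 1 ≤ L) (hLA : L ^ A ≤ x ^ (1 / 12 : ℝ))
    (hw0 : 0 < w) (hw : w ≤ x ^ (1 / 4 : ℝ)) (hw2 : x ^ (1 / 4 : ℝ) / 2 ≤ w)
    (hy : L ^ (3 * A + 3) / 2 ≤ y) :
    w ^ 2 ≤ x / L ^ A ∧ x * y ^ (-(1 / 3) : ℝ) ≤ 2 * (x / L ^ A) ∧
      x ^ (2 / 3 : ℝ) * (x / w) ^ (1 / 3 : ℝ) ≤ 2 * (x / L ^ A) := by
  have hx0 : 0 < x := by linarith
  have hL0 : 0 < L := by linarith
  have hLA0 : 0 < L ^ A := by positivity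
  have h11 : x ^ (11 / 12 : ℝ) ≤ x / L ^ A := by
    rw [le_div_iff₀ hLA0]
    calc x ^ (11 / 12 : ℝ) * L ^ A ≤ x ^ (11 / 12 : ℝ) * x ^ (1 / 12 : ℝ) :=
          mul_le_mul_of_nonneg_left hLA (by positivity)
      _ = x := by
          rw [← Real.rpow_add hx0]
          norm_num
  refine ⟨?_, ?_, ?_⟩
  · calc w ^ 2 ≤ (x ^ (1 / 4 : ℝ)) ^ 2 := by
          exact pow_le_pow_left₀ hw0.le hw 2
      _ = x ^ (1 / 2 : ℝ) := by
          rw [← Real.rpow_natCast, ← Real.rpow_mul hx0.le]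
          norm_num
      _ ≤ x ^ (11 / 12 : ℝ) := Real.rpow_le_rpow_of_exponent_le hx (by norm_num)
      _ ≤ _ := h11
  · have hb : 0 < L ^ (3 * A + 3) / 2 := by positivity
    have h1 : y ^ (-(1 / 3) : ℝ) ≤ (L ^ (3 * A + 3) / 2) ^ (-(1 / 3) : ℝ) :=
      Real.rpow_le_rpow_of_nonpos hb hy (by norm_num)
    have h2 : (L ^ (3 * A + 3) / 2) ^ (-(1 / 3) : ℝ) = 2 ^ (1 / 3 : ℝ) / L ^ (A + 1) := by
      rw [Real.rpow_neg hb.le, Real.div_rpow (by positivity) (by norm_num)]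
      have h3 : (L ^ (3 * A + 3)) ^ (1 / 3 : ℝ) = L ^ (A + 1) := by
        have h4 : L ^ (3 * A + 3) = (L ^ (A + 1)) ^ 3 := by
          rw [← pow_mul]
          congr 1
          ring
        rw [h4, ← Real.rpow_natCast (L ^ (A + 1)) 3, ← Real.rpow_mul (by positivity)]
        norm_num
      rw [h3, inv_div]
    have h5 : (2 : ℝ) ^ (1 / 3 : ℝ) ≤ 2 := by
      calc (2 : ℝ) ^ (1 / 3 : ℝ) ≤ 2 ^ (1 : ℝ) := Real.rpow_le_rpow_of_exponent_le (by norm_num) (by norm_num)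
        _ = 2 := Real.rpow_one 2
    have h6 : L ^ A ≤ L ^ (A + 1) := pow_le_pow_right₀ hL (by omega)
    calc x * y ^ (-(1 / 3) : ℝ) ≤ x * (2 ^ (1 / 3 : ℝ) / L ^ (A + 1)) := by
          rw [← h2]
          exact mul_le_mul_of_nonneg_left h1 hx0.le
      _ ≤ x * (2 / L ^ A) := by
          apply mul_le_mul_of_nonneg_left _ hx0.le
          exact div_le_div₀ (by norm_num) h5 hLA0 h6
      _ = 2 * (x / L ^ A) := by ring
  · have h1 : x / w ≤ 2 * x ^ (3 / 4 : ℝ) := by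
      rw [div_le_iff₀ hw0]
      calc x = x ^ (3 / 4 : ℝ) * x ^ (1 / 4 : ℝ) := by
            rw [← Real.rpow_add hx0]
            norm_num
        _ = 2 * x ^ (3 / 4 : ℝ) * (x ^ (1 / 4 : ℝ) / 2) := by ring
        _ ≤ 2 * x ^ (3 / 4 : ℝ) * w := mul_le_mul_of_nonneg_left hw2 (by positivity)
    have h2 : (x / w) ^ (1 / 3 : ℝ) ≤ 2 * x ^ (1 / 4 : ℝ) := by
      calc (x / w) ^ (1 / 3 : ℝ) ≤ (2 * x ^ (3 / 4 : ℝ)) ^ (1 / 3 : ℝ) :=
            Real.rpow_le_rpow (by positivity) h1 (by norm_num)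
        _ = 2 ^ (1 / 3 : ℝ) * x ^ (1 / 4 : ℝ) := by
            rw [Real.mul_rpow (by norm_num) (by positivity), ← Real.rpow_mul hx0.le]
            norm_num
        _ ≤ 2 * x ^ (1 / 4 : ℝ) := by
            apply mul_le_mul_of_nonneg_right _ (by positivity)
            calc (2 : ℝ) ^ (1 / 3 : ℝ) ≤ 2 ^ (1 : ℝ) :=
                  Real.rpow_le_rpow_of_exponent_le (by norm_num) (by norm_num)
              _ = 2 := Real.rpow_one 2
    calc x ^ (2 / 3 : ℝ) * (x / w) ^ (1 / 3 : ℝ) ≤ x ^ (2 / 3 : ℝ) * (2 * x ^ (1 / 4 : ℝ)) :=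
          mul_le_mul_of_nonneg_left h2 (by positivity)
      _ = 2 * (x ^ (2 / 3 : ℝ) * x ^ (1 / 4 : ℝ)) := by ring
      _ = 2 * x ^ (11 / 12 : ℝ) := by
          rw [← Real.rpow_add hx0]
          norm_num
      _ ≤ 2 * (x / L ^ A) := by linarith

open Filter in
/-- the threshold -/
theorem main_threshold (q A : ℕ) : ∃ X : ℕ, 3 ≤ X ∧ ∀ x : ℕ, X ≤ x →
    1 ≤ Real.log x ∧ (q : ℝ) ^ 3 + 2 ≤ Real.log x ^ (3 * A + 3) ∧
      Real.log x ^ A ≤ (x : ℝ) ^ (1 / 12 : ℝ) ∧ 2 ≤ (x : ℝ) ^ (1 / 4 : ℝ) := by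
  have hN : Tendsto (fun x : ℕ => (x : ℝ)) atTop atTop := tendsto_natCast_atTop_atTop
  have hlog : Tendsto (fun x : ℕ => Real.log x) atTop atTop := Real.tendsto_log_atTop.comp hN
  have e1 : ∀ᶠ x : ℕ in atTop, 1 ≤ Real.log x := hlog.eventually_ge_atTop 1
  have e2 : ∀ᶠ x : ℕ in atTop, (q : ℝ) ^ 3 + 2 ≤ Real.log x ^ (3 * A + 3) :=
    ((tendsto_pow_atTop (by omega : 3 * A + 3 ≠ 0)).comp hlog).eventually_ge_atTop _
  have e3 : ∀ᶠ x : ℕ in atTop, Real.log x ^ A ≤ (x : ℝ) ^ (1 / 12 : ℝ) := by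
    have h1 := (isLittleO_log_rpow_rpow_atTop (A : ℝ) (by norm_num : (0 : ℝ) < 1 / 12)).bound
      (by norm_num : (0 : ℝ) < 1)
    have h2 := hN.eventually h1
    filter_upwards [h2, e1] with x hx h1x
    rw [one_mul, Real.rpow_natCast, Real.norm_of_nonneg (by positivity),
      Real.norm_of_nonneg (by positivity)] at hx
    exact hx
  have e4 : ∀ᶠ x : ℕ in atTop, 2 ≤ (x : ℝ) ^ (1 / 4 : ℝ) :=
    ((tendsto_rpow_atTop (by norm_num : (0 : ℝ) < 1 / 4)).comp hN).eventually_ge_atTop _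
  obtain ⟨X, hX⟩ := eventually_atTop.1 (e1.and (e2.and (e3.and e4)))
  exact ⟨max X 3, le_max_right _ _, fun x hx => hX x ((le_max_left _ _).trans hx)⟩

theorem composite_solutions {q : ℕ} (hq : 2 ≤ q) (A : ℕ) : ∃ C : ℝ, ∀ x : ℕ, 2 ≤ x →
    (((Icc 2 x).filter fun n : ℕ => ¬ n.Prime ∧ (n : ℤ) ∣ ((q * n).choose n : ℤ) - (q : ℤ) ^ n).card : ℝ) ≤
      C * (x / Real.log x ^ A) := by
  obtain ⟨Cs, hCs0, hCs⟩ := smooth A (3 * A + 3) (by omega)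
  obtain ⟨X, hX3, hX⟩ := main_threshold q A
  set K : ℝ := Cs + q + 6 * q * (q + 9) * 4 with hK
  refine ⟨max K (Real.log X ^ A), fun x hx2 => ?_⟩
  have hx1 : (1 : ℝ) < x := by exact_mod_cast (by omega : 1 < x)
  have hL0 : 0 < Real.log x := Real.log_pos hx1
  have hr0 : 0 ≤ (x : ℝ) / Real.log x ^ A := by positivity
  rcases lt_or_ge x X with hlt | hge
  · -- small x
    have h1 : (((Icc 2 x).filter fun n : ℕ => ¬ n.Prime ∧ (n : ℤ) ∣ ((q * n).choose n : ℤ) -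
        (q : ℤ) ^ n).card : ℝ) ≤ x := by
      have h2 := card_filter_le (Icc 2 x) fun n : ℕ => ¬ n.Prime ∧ (n : ℤ) ∣ ((q * n).choose n : ℤ) -
        (q : ℤ) ^ n
      rw [Nat.card_Icc] at h2
      have h3 := h2.trans (by omega : x + 1 - 2 ≤ x)
      exact_mod_cast h3
    have h4 : Real.log x ^ A ≤ Real.log X ^ A := by
      apply pow_le_pow_left₀ hL0.le
      exact Real.log_le_log (by linarith) (by exact_mod_cast hlt.le)
    calc _ ≤ (x : ℝ) := h1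
      _ = Real.log x ^ A * (x / Real.log x ^ A) := by
          field_simp
      _ ≤ Real.log X ^ A * (x / Real.log x ^ A) := mul_le_mul_of_nonneg_right h4 hr0
      _ ≤ _ := mul_le_mul_of_nonneg_right (le_max_right _ _) hr0
  · -- large x
    obtain ⟨c1, c2, c3, c4⟩ := hX x hge
    set T : ℝ := Real.log x ^ (3 * A + 3) with hT
    have hT0 : 0 ≤ T := by positivity
    have hq0 : (0 : ℝ) ≤ (q : ℝ) ^ 3 := by positivity
    have hy : q ^ 3 ≤ ⌊T⌋₊ := by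
      apply Nat.le_floor
      push_cast
      linarith
    set w : ℕ := ⌊(x : ℝ) ^ (1 / 4 : ℝ)⌋₊ with hw
    have hw1 : 1 ≤ w := by
      apply Nat.le_floor
      push_cast
      linarith
    have hw1' : (1 : ℝ) ≤ w := by exact_mod_cast hw1
    have hwle : (w : ℝ) ≤ (x : ℝ) ^ (1 / 4 : ℝ) := Nat.floor_le (by positivity)
    have hwge : (x : ℝ) ^ (1 / 4 : ℝ) / 2 ≤ w := by
      have := Nat.lt_floor_add_one ((x : ℝ) ^ (1 / 4 : ℝ))
      rw [← hw] at this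
      linarith
    have hyge : Real.log x ^ (3 * A + 3) / 2 ≤ ((⌊T⌋₊ : ℕ) : ℝ) := by
      have := Nat.lt_floor_add_one T
      rw [← hT]
      linarith
    obtain ⟨d1, d2, d3⟩ := main_est A hx1.le c1 c3 (by linarith) hwle hwge hyge
    have s1 := main_split (q := q) x T hT0
    have s2 := comb hq x ⌊T⌋₊ w hy hw1
    have s3 := hCs x (by omega)
    have hq' : (0 : ℝ) ≤ q := by positivity
    have s4 : (q : ℝ) * (w : ℝ) ^ 2 ≤ q * (x / Real.log x ^ A) := mul_le_mul_of_nonneg_left d1 hq'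
    have s5 : 6 * (q : ℝ) * (q + 9) * ((x : ℝ) * ((⌊T⌋₊ : ℕ) : ℝ) ^ (-(1 / 3) : ℝ) +
        (x : ℝ) ^ (2 / 3 : ℝ) * ((x : ℝ) / w) ^ (1 / 3 : ℝ)) ≤
        6 * q * (q + 9) * (4 * (x / Real.log x ^ A)) :=
      mul_le_mul_of_nonneg_left (by linarith) (by positivity)
    have s6 : (((Icc 2 x).filter fun n : ℕ => ¬ n.Prime ∧ (n : ℤ) ∣ ((q * n).choose n : ℤ) -
        (q : ℤ) ^ n).card : ℝ) ≤ K * (x / Real.log x ^ A) := by
      rw [hK]
      nlinarith [s1, s2, s3, s4, s5]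
    exact s6.trans (mul_le_mul_of_nonneg_right (le_max_left _ _) hr0)

end Pool.Agent.QCS
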