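import Mathlib

/-!
QCS (MP_b78341_nt), module Rel. Paper proof. s = q b - t p, s' = q (b + h) - t p = s + q h < p, s - b = (q - 1) b - t p,
s' - (b + h) = (s - b) + (q - 1) h. In the naturals C(s', b+h) (b+h)! (s'-b-h)! = s'! and C(s, b) b! (s-b)! = s!, and
(n + k)! = n! prod_(i<k) (n + 1 + i) (Nat.factorial_mul_ascFactorial, Nat.ascFactorial_eq_prod_range). Cast to ZMod p (s = q b there,
s - b = (q - 1) b), cancel b! and (s - b)! (nonzero, both numbers are < p), multiply with u, cancel q^b (q is a unit as 0 < q < p).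
-/

set_option autoImplicit false

namespace Pool.Agent.QCS

open Finset

/-- The factorial of a sum. -/
theorem fac_add (n k : ℕ) : (n + k).factorial = n.factorial * ∏ i ∈ range k, (n + 1 + i) := by
  induction k with
  | zero => simp
  | succ k ih =>
    rw [prod_range_succ, ← mul_assoc, ← ih, ← Nat.add_assoc, Nat.factorial_succ]
    ring

/-- Factorials of small numbers are not zero modulo `p`. -/
theorem fac_ne {p n : ℕ} [Fact p.Prime] (h : n < p) : ((n.factorial : ℕ) : ZMod p) ≠ 0 := by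
  intro h0
  have h1 := (ZMod.natCast_eq_zero_iff _ p).1 h0
  have h2 := ((Fact.out : p.Prime).dvd_factorial).1 h1
  omega

theorem rel {p q b h t : ℕ} [Fact p.Prime] (hq : 2 ≤ q) (hqp : q < p) (hb : t * p + b ≤ q * b)
    (hs : q * (b + h) - t * p < p) (u : ZMod p)
    (h1 : u * ((q * b - t * p).choose b : ZMod p) = (q : ZMod p) ^ b)
    (h2 : u * ((q * (b + h) - t * p).choose (b + h) : ZMod p) = (q : ZMod p) ^ (b + h)) :
    ∏ i ∈ range (q * h), ((q : ZMod p) * b + 1 + i) =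
      (q : ZMod p) ^ h * (∏ i ∈ range h, ((b : ZMod p) + 1 + i)) *
        ∏ i ∈ range ((q - 1) * h), (((q : ZMod p) - 1) * b + 1 + i) := by
  obtain ⟨s, hs1⟩ : ∃ s, s = q * b - t * p := ⟨_, rfl⟩
  have hs2 : s + t * p = q * b := by omega
  have hs3 : q * (b + h) - t * p = s + q * h := by
    rw [mul_add]
    omega
  obtain ⟨m, hm⟩ : ∃ m, m = (q - 1) * h := ⟨_, rfl⟩
  have hm2 : q * h = m + h := by
    rw [hm]
    obtain ⟨k, rfl⟩ : ∃ k, q = k + 1 := ⟨q - 1, by omega⟩
    rw [Nat.add_sub_cancel]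
    ring
  have hbs : b ≤ s := by omega
  obtain ⟨r, hr⟩ : ∃ r, r = s - b := ⟨_, rfl⟩
  have hr2 : s = r + b := by omega
  rw [hs3] at hs h2
  rw [← hs1] at h1
  have c1 := Nat.choose_mul_factorial_mul_factorial (n := s) (k := b) hbs
  have c2 := Nat.choose_mul_factorial_mul_factorial (n := s + q * h) (k := b + h) (by omega)
  have e1 : s + q * h - (b + h) = r + m := by omega
  rw [← hr] at c1
  rw [e1, fac_add b h, fac_add r m, fac_add s (q * h), ← c1] at c2
  obtain ⟨c, hc⟩ : ∃ c, c = s.choose b := ⟨_, rfl⟩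
  obtain ⟨c', hc'⟩ : ∃ c', c' = (s + q * h).choose (b + h) := ⟨_, rfl⟩
  rw [← hc] at h1 c2
  rw [← hc'] at h2 c2
  have c3 := congrArg (Nat.cast : ℕ → ZMod p) c2
  push_cast at c3
  have hsz : (s : ZMod p) = q * b := by
    have h3 := congrArg (Nat.cast : ℕ → ZMod p) hs2
    push_cast at h3
    rw [ZMod.natCast_self, mul_zero, add_zero] at h3
    exact h3
  have hrz : (r : ZMod p) = ((q : ZMod p) - 1) * b := by
    have h3 := congrArg (Nat.cast : ℕ → ZMod p) hr2
    push_cast at h3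
    rw [hsz] at h3
    linear_combination -h3
  rw [hsz, hrz] at c3
  have hbz : ((b.factorial : ℕ) : ZMod p) ≠ 0 := fac_ne (by omega)
  have hrz' : ((r.factorial : ℕ) : ZMod p) ≠ 0 := fac_ne (by omega)
  have hqz : (q : ZMod p) ≠ 0 := by
    intro h0
    have h3 := Nat.le_of_dvd (by omega) ((ZMod.natCast_eq_zero_iff _ p).1 h0)
    omega
  rw [← hm]
  obtain ⟨A, hA⟩ : ∃ A : ZMod p, A = ∏ i ∈ range h, ((b : ZMod p) + 1 + i) := ⟨_, rfl⟩
  obtain ⟨B, hB⟩ : ∃ B : ZMod p, B = ∏ i ∈ range m, (((q : ZMod p) - 1) * b + 1 + i) := ⟨_, rfl⟩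
  obtain ⟨E, hE⟩ : ∃ E : ZMod p, E = ∏ i ∈ range (q * h), ((q : ZMod p) * b + 1 + i) := ⟨_, rfl⟩
  rw [← hA, ← hB, ← hE] at c3 ⊢
  have c4 : ((b.factorial : ℕ) : ZMod p) * ((r.factorial : ℕ) : ZMod p) * ((c' : ZMod p) * A * B) =
      ((b.factorial : ℕ) : ZMod p) * ((r.factorial : ℕ) : ZMod p) * ((c : ZMod p) * E) := by
    linear_combination c3
  have c5 := mul_left_cancel₀ (mul_ne_zero hbz hrz') c4
  have c6 : (q : ZMod p) ^ b * E = (q : ZMod p) ^ b * ((q : ZMod p) ^ h * A * B) := by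
    calc (q : ZMod p) ^ b * E = u * (c : ZMod p) * E := by rw [h1]
      _ = u * ((c : ZMod p) * E) := by ring
      _ = u * ((c' : ZMod p) * A * B) := by rw [c5]
      _ = u * (c' : ZMod p) * A * B := by ring
      _ = (q : ZMod p) ^ (b + h) * A * B := by rw [h2]
      _ = (q : ZMod p) ^ b * ((q : ZMod p) ^ h * A * B) := by ring
  exact mul_left_cancel₀ (pow_ne_zero b hqz) c6

end Pool.Agent.QCS
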